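import Pool.Agent.W845.DH.Stm

/-!
# Matching with good ends (task DH-HG)
-/

set_option autoImplicit false
open scoped Classical

namespace Pool.Agent.W67.DH

open Pool.Agent.W845.DH

theorem card_compl_le {V : Type} (A : Finset V) (p : V → Prop) {l : ℕ}
    (h : (A.filter (fun x => ¬ p x)).card ≤ l) : A.card ≤ (A.filter p).card + l := by
  have := Finset.card_filter_add_card_filter_not (s := A) p
  omega

theorem card_and {V : Type} (A : Finset V) (p r : V → Prop) {l b : ℕ}
    (h : (A.filter (fun x => ¬ p x)).card ≤ l) (hb : b ≤ (A.filter r).card) :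
    b ≤ (A.filter (fun x => r x ∧ p x)).card + l := by
  have h1 : (A.filter r).card ≤ (A.filter (fun x => r x ∧ p x)).card +
      (A.filter (fun x => ¬ p x)).card := by
    refine (Finset.card_le_card ?_).trans (Finset.card_union_le _ _)
    intro x hx
    rw [Finset.mem_filter] at hx
    rw [Finset.mem_union, Finset.mem_filter, Finset.mem_filter]
    by_cases hp : p x
    · exact Or.inl ⟨hx.1, hx.2, hp⟩
    · exact Or.inr ⟨hx.1, hp⟩
  omega

theorem hg : S_HG := by
  intro V _ D U W P Q l b c hB
  obtain ⟨hcard, hq, hb, -, hP, hQ, hPm, hQm, hod, hid, -⟩ := hB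
  -- the allowed neighbours
  have hall : ∀ s : Finset {x // x ∈ U}, s.card ≤
      (s.biUnion (fun u => W.filter (fun w => D u.1 w ∧ (P u.1 ∨ Q w)))).card := by
    intro s
    have hXU : (s.image Subtype.val) ⊆ U := by
      intro x hx
      rw [Finset.mem_image] at hx
      obtain ⟨y, _, rfl⟩ := hx
      exact y.2
    have hXcard : (s.image Subtype.val).card = s.card :=
      Finset.card_image_of_injective _ Subtype.val_injective
    by_cases hgood : ∃ x ∈ s, P x.1
    · obtain ⟨x, hxs, hxP⟩ := hgood
      have hN1 : W.filter (fun w => D x.1 w ∧ (P x.1 ∨ Q w)) ⊆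
          s.biUnion (fun u => W.filter (fun w => D u.1 w ∧ (P u.1 ∨ Q w))) :=
        Finset.subset_biUnion_of_mem (fun u : {x // x ∈ U} => W.filter (fun w => D u.1 w ∧ (P u.1 ∨ Q w))) hxs
      have hN2 : W.filter (fun w => D x.1 w ∧ (P x.1 ∨ Q w)) = W.filter (fun w => D x.1 w) := by
        apply Finset.filter_congr
        intro w _
        exact ⟨fun h => h.1, fun h => ⟨h, Or.inl hxP⟩⟩
      have hN3 := card_compl_le W (fun w => D x.1 w) (hPm x.1 x.2 hxP)
      by_cases hs : s.card + l ≤ U.card
      · have := Finset.card_le_card hN1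
        rw [hN2] at this
        omega
      · -- all of `W` is covered
        have hW : W ⊆ s.biUnion (fun u => W.filter (fun w => D u.1 w ∧ (P u.1 ∨ Q w))) := by
          intro w hw
          have key : ∃ u ∈ s.image Subtype.val, D u w ∧ (P u ∨ Q w) := by
            by_cases hQw : Q w
            · have h1 := card_compl_le U (fun u => D u w) (hQm w hw hQw)
              have h2 : ((s.image Subtype.val) ∩ (U.filter (fun u => D u w))).Nonempty := by
                apply Finset.inter_nonempty_of_card_lt_card_add_card hXU (Finset.filter_subset _ _)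
                omega
              obtain ⟨u, hu⟩ := h2
              rw [Finset.mem_inter, Finset.mem_filter] at hu
              exact ⟨u, hu.1, hu.2.2, Or.inr hQw⟩
            · have h1 := card_and U P (fun u => D u w) hP (hid w hw)
              have h2 : ((s.image Subtype.val) ∩ (U.filter (fun u => D u w ∧ P u))).Nonempty := by
                apply Finset.inter_nonempty_of_card_lt_card_add_card hXU (Finset.filter_subset _ _)
                omega
              obtain ⟨u, hu⟩ := h2
              rw [Finset.mem_inter, Finset.mem_filter] at hu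
              exact ⟨u, hu.1, hu.2.2.1, Or.inl hu.2.2.2⟩
          obtain ⟨u, hu, hD⟩ := key
          rw [Finset.mem_image] at hu
          obtain ⟨y, hy, rfl⟩ := hu
          rw [Finset.mem_biUnion]
          exact ⟨y, hy, Finset.mem_filter.mpr ⟨hw, hD⟩⟩
        have h1 := Finset.card_le_card hW
        have h2 := Finset.card_le_card hXU
        omega
    · push Not at hgood
      rcases s.eq_empty_or_nonempty with rfl | ⟨x, hx⟩
      · simp
      · have h1 : s.card ≤ l := by
          rw [← hXcard]
          refine (Finset.card_le_card ?_).trans hP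
          intro y hy
          rw [Finset.mem_image] at hy
          obtain ⟨z, hz, rfl⟩ := hy
          exact Finset.mem_filter.mpr ⟨z.2, hgood z hz⟩
        have hN1 : W.filter (fun w => D x.1 w ∧ (P x.1 ∨ Q w)) ⊆
            s.biUnion (fun u => W.filter (fun w => D u.1 w ∧ (P u.1 ∨ Q w))) :=
          Finset.subset_biUnion_of_mem (fun u : {x // x ∈ U} => W.filter (fun w => D u.1 w ∧ (P u.1 ∨ Q w))) hx
        have hN2 : W.filter (fun w => D x.1 w ∧ Q w) ⊆ W.filter (fun w => D x.1 w ∧ (P x.1 ∨ Q w)) := by
          intro w hw
          rw [Finset.mem_filter] at hw ⊢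
          exact ⟨hw.1, hw.2.1, Or.inr hw.2.2⟩
        have h2 := card_and W Q (fun w => D x.1 w) hQ (hod x.1 x.2)
        have h3 := Finset.card_le_card (hN2.trans hN1)
        omega
  obtain ⟨f, hf, hft⟩ := (Finset.all_card_le_biUnion_card_iff_exists_injective
    (fun u : {x // x ∈ U} => W.filter (fun w => D u.1 w ∧ (P u.1 ∨ Q w)))).mp hall
  refine ⟨fun v => if h : v ∈ U then f ⟨v, h⟩ else v, ?_, ?_⟩
  · intro x hx y hy hxy
    have hx' : x ∈ U := hx
    have hy' : y ∈ U := hy
    simp only [hx', hy', dif_pos] at hxy
    exact congrArg Subtype.val (hf hxy)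
  · intro u hu
    simp only [hu, dif_pos]
    have := hft ⟨u, hu⟩
    rw [Finset.mem_filter] at this
    exact ⟨this.1, this.2.1, this.2.2⟩

end Pool.Agent.W67.DH
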